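import Pool.Agent.R986.Boltz3

/-!
# Support-preserving convolution endomorphisms of measures on `ℤ^d` are Boltzmann reweightings
-/

set_option autoImplicit false

namespace Pool.Agent.Results.MP_847c7e_pr.BoltzmannEndo

open AddMonoidAlgebra Pool.Agent.R986.Boltz

/-- Finitely supported probability measures on `ℤ^d`, written as functions. -/
structure FinProb (d : ℕ) where
  /-- the weights -/
  toFun : (Fin d → ℤ) → ℝ
  finite : (Function.support toFun).Finite
  nonneg : ∀ x, 0 ≤ toFun x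
  sum_eq_one : ∑ᶠ x, toFun x = 1

/-- `ρ` is the convolution of `μ` and `ν`. -/
def IsConv {d : ℕ} (ρ μ ν : FinProb d) : Prop :=
  ∀ x, ρ.toFun x = ∑ᶠ y, μ.toFun y * ν.toFun (x - y)

/-- `Φ` is an endomorphism of the convolution semigroup. -/
def IsEndo {d : ℕ} (Φ : FinProb d → FinProb d) : Prop :=
  ∀ μ ν ρ, IsConv ρ μ ν → IsConv (Φ ρ) (Φ μ) (Φ ν)

/-- `Φ` preserves supports. -/
def SupportPreserving {d : ℕ} (Φ : FinProb d → FinProb d) : Prop :=
  ∀ μ x, (Φ μ).toFun x ≠ 0 ↔ μ.toFun x ≠ 0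

variable {d : ℕ}

theorem conv_eq (X Y : AddMonoidAlgebra ℝ (Fin d → ℤ)) (x : Fin d → ℤ) :
    (X * Y).coeff x = ∑ᶠ y, X.coeff y * Y.coeff (x - y) := by
  rw [coeff_mul_apply_left, Finsupp.sum, finsum_eq_sum_of_support_subset (s := X.coeff.support)]
  · apply Finset.sum_congr rfl
    intro y _
    rw [neg_add_eq_sub]
  · intro y hy
    rw [Function.mem_support] at hy
    exact Finsupp.mem_support_iff.2 (left_ne_zero_of_mul hy)

/-- the total mass -/
noncomputable def eps : AddMonoidAlgebra ℝ (Fin d → ℤ) →+* ℝ :=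
  liftNCRingHom (RingHom.id ℝ) (1 : Multiplicative (Fin d → ℤ) →* ℝ) fun _ _ => Commute.all _ _

theorem eps_eq (P : AddMonoidAlgebra ℝ (Fin d → ℤ)) : eps P = ∑ᶠ x, P.coeff x := by
  have h1 : eps P = ∑ x ∈ P.coeff.support, P.coeff x := by
    conv_lhs => rw [← sum_coeff_single P, Finsupp.sum, map_sum]
    apply Finset.sum_congr rfl
    intro x _
    show liftNC _ _ (single x (P.coeff x)) = _
    rw [liftNC_single]
    simp
  rw [h1, finsum_eq_sum_of_support_subset]
  intro y hy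
  exact Finsupp.mem_support_iff.2 hy

theorem eps_pos (P : AddMonoidAlgebra ℝ (Fin d → ℤ)) (hP : NN P) : 0 < eps P := by
  rw [eps_eq, finsum_eq_sum_of_support_subset (s := P.coeff.support)]
  · apply Finset.sum_pos
    · intro x hx
      exact lt_of_le_of_ne (hP.1 x) (Ne.symm (Finsupp.mem_support_iff.1 hx))
    · rw [Finsupp.support_nonempty_iff]
      intro h
      exact hP.2 (by ext x; rw [h]; rfl)
  · intro y hy
    exact Finsupp.mem_support_iff.2 hy

/-- normalisation -/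
noncomputable def toFP (P : AddMonoidAlgebra ℝ (Fin d → ℤ)) (hP : NN P) : FinProb d where
  toFun x := P.coeff x / eps P
  finite := by
    refine P.coeff.support.finite_toSet.subset ?_
    intro x hx
    rw [Function.mem_support] at hx
    apply Finset.mem_coe.2
    rw [Finsupp.mem_support_iff]
    intro h
    rw [h, zero_div] at hx
    exact hx rfl
  nonneg x := div_nonneg (hP.1 x) (eps_pos P hP).le
  sum_eq_one := by
    simp only [div_eq_mul_inv]
    rw [← finsum_mul, ← eps_eq, mul_inv_cancel₀ (eps_pos P hP).ne']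

/-- a measure as an element of the group algebra -/
noncomputable def ofFP (μ : FinProb d) : AddMonoidAlgebra ℝ (Fin d → ℤ) :=
  ofCoeff (Finsupp.ofSupportFinite μ.toFun μ.finite)

theorem ofFP_coeff (μ : FinProb d) (x : Fin d → ℤ) : (ofFP μ).coeff x = μ.toFun x := rfl

theorem nn_mul' {P Q : AddMonoidAlgebra ℝ (Fin d → ℤ)} (hP : NN P) (hQ : NN Q) : NN (P * Q) := by
  refine ⟨nn_mul hP hQ.1, ?_⟩
  intro h
  have h1 : eps (P * Q) = 0 := by rw [h, map_zero]
  rw [map_mul] at h1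
  exact (mul_pos (eps_pos P hP) (eps_pos Q hQ)).ne' h1

open Classical in
/-- the induced map -/
noncomputable def Psi (Φ : FinProb d → FinProb d) (P : AddMonoidAlgebra ℝ (Fin d → ℤ)) :
    AddMonoidAlgebra ℝ (Fin d → ℤ) := if h : NN P then ofFP (Φ (toFP P h)) else 0

theorem good (Φ : FinProb d → FinProb d) (hE : IsEndo Φ) (hS : SupportPreserving Φ) :
    Good (Psi Φ) where
  mul P Q hP hQ := by
    have hPQ := nn_mul' hP hQ
    unfold Psi
    rw [dif_pos hP, dif_pos hQ, dif_pos hPQ]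
    ext x
    rw [ofFP_coeff, conv_eq]
    apply hE (toFP P hP) (toFP Q hQ) (toFP (P * Q) hPQ)
    intro y
    show (P * Q).coeff y / eps (P * Q) = ∑ᶠ z, P.coeff z / eps P * (Q.coeff (y - z) / eps Q)
    rw [conv_eq, map_mul, div_eq_mul_inv, finsum_mul]
    apply finsum_congr
    intro z
    have h1 := (eps_pos P hP).ne'
    have h2 := (eps_pos Q hQ).ne'
    field_simp
  pos_iff P hP x hx := by
    unfold Psi
    rw [dif_pos hP, ofFP_coeff]
    refine lt_of_le_of_ne ((Φ (toFP P hP)).nonneg x) (Ne.symm ?_)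
    rw [hS]
    exact div_ne_zero hx (eps_pos P hP).ne'
  zero P hP x hx := by
    unfold Psi
    rw [dif_pos hP, ofFP_coeff]
    by_contra h
    rw [← Ne, hS] at h
    apply h
    show P.coeff x / eps P = 0
    rw [hx, zero_div]

theorem result (d : ℕ) (Φ : FinProb d → FinProb d) (hE : IsEndo Φ) (hS : SupportPreserving Φ) :
    ∃ β : Fin d → ℝ, ∀ μ x, (Φ μ).toFun x =
      μ.toFun x * Real.exp (-∑ i, β i * (x i : ℝ)) /
        ∑ᶠ y, μ.toFun y * Real.exp (-∑ i, β i * (y i : ℝ)) := by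
  obtain ⟨β, hβ⟩ := main (good Φ hE hS)
  refine ⟨β, fun μ x => ?_⟩
  have hne : ofFP μ ≠ 0 := by
    intro h
    have h1 : ∀ x, μ.toFun x = 0 := fun x => by rw [← ofFP_coeff, h]; rfl
    have h2 := μ.sum_eq_one
    simp [h1] at h2
  have hN : NN (ofFP μ) := ⟨fun x => μ.nonneg x, hne⟩
  have heps : eps (ofFP μ) = 1 := by
    rw [eps_eq]
    exact μ.sum_eq_one
  have hto : toFP (ofFP μ) hN = μ := by
    cases μ with
    | mk f hf hn hs =>
      unfold toFP
      congr 1
      ext x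
      rw [heps, div_one]
      rfl
  obtain ⟨t, ht⟩ := hβ (ofFP μ) hN
  have hΦ : ∀ x, (Φ μ).toFun x = t * (μ.toFun x * Real.exp (-∑ i, β i * (x i : ℝ))) := by
    intro x
    rw [← ofFP_coeff μ x, ← ht x]
    unfold Psi
    rw [dif_pos hN, ofFP_coeff, hto]
  have hsum : t * ∑ᶠ y, μ.toFun y * Real.exp (-∑ i, β i * (y i : ℝ)) = 1 := by
    rw [mul_finsum, ← (Φ μ).sum_eq_one]
    exact finsum_congr fun y => (hΦ y).symm
  have hZ : ∑ᶠ y, μ.toFun y * Real.exp (-∑ i, β i * (y i : ℝ)) ≠ 0 := right_ne_zero_of_mul_eq_one hsum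
  rw [eq_div_iff hZ, hΦ x]
  calc t * (μ.toFun x * Real.exp (-∑ i, β i * (x i : ℝ))) *
        ∑ᶠ y, μ.toFun y * Real.exp (-∑ i, β i * (y i : ℝ))
      = (μ.toFun x * Real.exp (-∑ i, β i * (x i : ℝ))) *
        (t * ∑ᶠ y, μ.toFun y * Real.exp (-∑ i, β i * (y i : ℝ))) := by ring
    _ = μ.toFun x * Real.exp (-∑ i, β i * (x i : ℝ)) := by rw [hsum, mul_one]

end Pool.Agent.Results.MP_847c7e_pr.BoltzmannEndo
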